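import Pool.Agent.Lib.MP_4fbe7c_an.UL.Iface

/-!
Module P4B of project UL (MP_4fbe7c_an), helper20.
-/

set_option autoImplicit false

open Set

namespace Pool.Agent.Lib.MP_4fbe7c_an.UL.H20

open Pool.Agent.Lib.MP_4fbe7c_an.UL

/-- Summation by parts. -/
theorem abel (c : ℕ) (κ ξ α : ℕ → ℝ) (m : ℕ) (hm : c ≤ m) :
    ∑ j ∈ Finset.Ico c (m + 1), κ j * (ξ j - ξ (j + 1)) * α j =
      κ c * ξ c * α c + (∑ j ∈ Finset.Ico c m, ξ (j + 1) * (κ (j + 1) * α (j + 1) - κ j * α j))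
        - κ m * ξ (m + 1) * α m := by
  induction m, hm using Nat.le_induction with
  | base => simp; ring
  | succ m hm ih =>
    rw [Finset.sum_Ico_succ_top (by omega), ih, Finset.sum_Ico_succ_top hm]
    ring

theorem abs_sum3 (x y z : ℝ) : |x + y + z| ≤ |x| + |y| + |z| :=
  (abs_add_le _ _).trans (by linarith [abs_add_le x y])

/-- One level. -/
theorem termb (ζ s τ k1 k2 ν r r' b e G : ℝ) (hs : 0 ≤ s) (hsτ : s ≤ τ) (hτ : τ ≤ 1)
    (hk1 : 0 ≤ k1) (hk1' : k1 ≤ 1 / 50000 * r) (hk2 : 0 ≤ k2) (hk2' : k2 ≤ 1 / 50000 * ν)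
    (hν : 0 ≤ ν) (hr' : 0 ≤ r') (hr : r' ≤ r) (hr3 : r ≤ 1 / 3) (hG : ν * r ≤ G) :
    |4 * ζ * (s * (k1 * ν * e - k2 * (b - r' * e)))| ≤
      ν * (6 / 10000 * (τ * ζ ^ 2) + 1 / 100000 * (b - ζ) ^ 2) + 1 / 100 * (G * (e - b) ^ 2) := by
  set a := |ζ| with ha
  set T := |b - ζ| with hT
  set D := |e - b| with hD
  have ha0 : 0 ≤ a := abs_nonneg _
  have hT0 : 0 ≤ T := abs_nonneg _
  have hD0 : 0 ≤ D := abs_nonneg _
  have hb : |b| ≤ a + T := by
    have : b = ζ + (b - ζ) := by ring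
    calc |b| = |ζ + (b - ζ)| := by rw [← this]
      _ ≤ a + T := abs_add_le _ _
  have he : |e| ≤ a + T + D := by
    have : e = ζ + (b - ζ) + (e - b) := by ring
    calc |e| = |ζ + (b - ζ) + (e - b)| := by rw [← this]
      _ ≤ a + T + D := abs_sum3 _ _ _
  have hr0 : 0 ≤ r := hr'.trans hr
  have hτ0 : 0 ≤ τ := hs.trans hsτ
  have h1 : |k1 * ν * e - k2 * (b - r' * e)| ≤ k1 * ν * |e| + k2 * (|b| + r' * |e|) := by
    have e1 : |k1 * ν * e| = k1 * ν * |e| := by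
      rw [abs_mul, abs_of_nonneg (mul_nonneg hk1 hν)]
    have e2 : |k2 * (b - r' * e)| ≤ k2 * (|b| + r' * |e|) := by
      rw [abs_mul, abs_of_nonneg hk2]
      apply mul_le_mul_of_nonneg_left _ hk2
      calc |b - r' * e| ≤ |b| + |r' * e| := abs_sub _ _
        _ = |b| + r' * |e| := by rw [abs_mul, abs_of_nonneg hr']
    calc _ ≤ |k1 * ν * e| + |k2 * (b - r' * e)| := abs_sub _ _
      _ ≤ _ := by rw [e1]; linarith
  have h2 : k1 * ν * |e| + k2 * (|b| + r' * |e|) ≤ 1 / 50000 * ν * (|b| + 2 * r * |e|) := by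
    have hbn := abs_nonneg b
    have hen := abs_nonneg e
    have f1 : k1 * ν * |e| ≤ 1 / 50000 * r * ν * |e| := by
      apply mul_le_mul_of_nonneg_right _ hen
      exact mul_le_mul_of_nonneg_right hk1' hν
    have f2 : k2 * (|b| + r' * |e|) ≤ 1 / 50000 * ν * (|b| + r * |e|) := by
      apply mul_le_mul hk2' _ (by positivity) (by positivity)
      have := mul_le_mul_of_nonneg_right hr hen
      linarith
    nlinarith
  have h3 : |b| + 2 * r * |e| ≤ 5 / 3 * (a + T) + 2 * r * D := by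
    have g1 : 2 * r * |e| ≤ 2 * r * (a + T + D) :=
      mul_le_mul_of_nonneg_left he (by positivity)
    have g2 : 2 * r * (a + T) ≤ 2 / 3 * (a + T) := by
      apply mul_le_mul_of_nonneg_right _ (by positivity)
      linarith
    nlinarith
  have h4 : |4 * ζ * (s * (k1 * ν * e - k2 * (b - r' * e)))| ≤
      4 * a * (τ * (1 / 50000 * ν * (5 / 3 * (a + T) + 2 * r * D))) := by
    rw [abs_mul, abs_mul, abs_of_pos (by norm_num : (0 : ℝ) < 4), abs_mul, abs_of_nonneg hs]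
    apply mul_le_mul_of_nonneg_left _ (by positivity)
    apply mul_le_mul hsτ _ (abs_nonneg _) hτ0
    calc _ ≤ _ := h1
      _ ≤ _ := h2
      _ ≤ _ := mul_le_mul_of_nonneg_left h3 (by positivity)
  have ha2 : ζ ^ 2 = a ^ 2 := (sq_abs ζ).symm
  have hT2 : (b - ζ) ^ 2 = T ^ 2 := (sq_abs _).symm
  have hD2 : (e - b) ^ 2 = D ^ 2 := (sq_abs _).symm
  rw [ha2, hT2, hD2]
  -- two AM-GM inequalities
  have g1 : 4 * a * (τ * (1 / 50000 * (5 / 3 * (a + T)))) ≤
      59 / 100000 * (τ * a ^ 2) + 1 / 100000 * T ^ 2 := by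
    have hττ : τ ^ 2 ≤ τ := by nlinarith
    have : (τ * a) * T * (2 / 15000) ≤ 1 / 100000 * T ^ 2 + 4 / 9000 * (τ * a) ^ 2 := by
      nlinarith [sq_nonneg (T - 20 / 3 * (τ * a))]
    have h5 : (τ * a) ^ 2 ≤ τ * a ^ 2 := by
      rw [mul_pow]; exact mul_le_mul_of_nonneg_right hττ (sq_nonneg a)
    nlinarith [mul_nonneg hτ0 (sq_nonneg a)]
  have g2 : 4 * a * (τ * (1 / 50000 * (2 * D))) ≤ 1 / 100 * D ^ 2 + 1 / 100000 * (τ * a ^ 2) := by
    have hττ : τ ^ 2 ≤ τ := by nlinarith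
    have h5 : (τ * a) ^ 2 ≤ τ * a ^ 2 := by
      rw [mul_pow]; exact mul_le_mul_of_nonneg_right hττ (sq_nonneg a)
    nlinarith [sq_nonneg (D - 8 / 1000 * (τ * a)), mul_nonneg hτ0 (sq_nonneg a)]
  have g3 : ν * r * (1 / 100 * D ^ 2 + 1 / 100000 * (τ * a ^ 2)) ≤
      1 / 100 * (G * D ^ 2) + ν * (1 / 100000 * (τ * a ^ 2)) := by
    have k1 : ν * r * D ^ 2 ≤ G * D ^ 2 := mul_le_mul_of_nonneg_right hG (sq_nonneg D)
    have k2 : ν * r * (τ * a ^ 2) ≤ ν * (τ * a ^ 2) := by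
      apply mul_le_mul_of_nonneg_right _ (mul_nonneg hτ0 (sq_nonneg a))
      nlinarith
    nlinarith
  have g4 := mul_le_mul_of_nonneg_left g1 hν
  have g5 := mul_le_mul_of_nonneg_left g2 (mul_nonneg hν hr0)
  calc _ ≤ _ := h4
    _ = ν * (4 * a * (τ * (1 / 50000 * (5 / 3 * (a + T))))) +
        ν * r * (4 * a * (τ * (1 / 50000 * (2 * D)))) := by ring
    _ ≤ ν * (59 / 100000 * (τ * a ^ 2) + 1 / 100000 * T ^ 2) +
        (1 / 100 * (G * D ^ 2) + ν * (1 / 100000 * (τ * a ^ 2))) := by linarith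
    _ = _ := by ring

/-- The first term. -/
theorem firstb (ζ τ k r b e : ℝ) (hτ0 : 0 ≤ τ) (hτ : τ ≤ 1) (hk : 0 ≤ k)
    (hk' : k ≤ 1 / 50000 * r) (hr0 : 0 ≤ r) (hr3 : r ≤ 1 / 3) :
    |4 * ζ * (k * (τ * (b - r * e)))| ≤
      6 / 100000 * (τ * ζ ^ 2) + 2 / 100000 * (b - ζ) ^ 2 + 1 / 100000 * (e - b) ^ 2 := by
  set a := |ζ| with ha
  set T := |b - ζ| with hT
  set D := |e - b| with hD
  have ha0 : 0 ≤ a := abs_nonneg _
  have hT0 : 0 ≤ T := abs_nonneg _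
  have hD0 : 0 ≤ D := abs_nonneg _
  have hb : |b| ≤ a + T := by
    have : b = ζ + (b - ζ) := by ring
    calc |b| = |ζ + (b - ζ)| := by rw [← this]
      _ ≤ a + T := abs_add_le _ _
  have he : |e| ≤ a + T + D := by
    have : e = ζ + (b - ζ) + (e - b) := by ring
    calc |e| = |ζ + (b - ζ) + (e - b)| := by rw [← this]
      _ ≤ a + T + D := abs_sum3 _ _ _
  have h1 : |b - r * e| ≤ 4 / 3 * (a + T) + 1 / 3 * D := by
    calc |b - r * e| ≤ |b| + |r * e| := abs_sub _ _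
      _ = |b| + r * |e| := by rw [abs_mul, abs_of_nonneg hr0]
      _ ≤ |b| + 1 / 3 * |e| := by
        have := mul_le_mul_of_nonneg_right hr3 (abs_nonneg e); linarith
      _ ≤ _ := by linarith
  have hk3 : k ≤ 1 / 150000 := by linarith
  have h4 : |4 * ζ * (k * (τ * (b - r * e)))| ≤
      4 * a * (1 / 150000 * (τ * (4 / 3 * (a + T) + 1 / 3 * D))) := by
    rw [abs_mul, abs_mul, abs_of_pos (by norm_num : (0 : ℝ) < 4), abs_mul, abs_of_nonneg hk,
      abs_mul, abs_of_nonneg hτ0]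
    apply mul_le_mul_of_nonneg_left _ (by positivity)
    apply mul_le_mul hk3 _ (mul_nonneg hτ0 (abs_nonneg _)) (by norm_num)
    exact mul_le_mul_of_nonneg_left h1 hτ0
  have ha2 : ζ ^ 2 = a ^ 2 := (sq_abs ζ).symm
  have hT2 : (b - ζ) ^ 2 = T ^ 2 := (sq_abs _).symm
  have hD2 : (e - b) ^ 2 = D ^ 2 := (sq_abs _).symm
  rw [ha2, hT2, hD2]
  have hττ : τ ^ 2 ≤ τ := by nlinarith
  have h5 : (τ * a) ^ 2 ≤ τ * a ^ 2 := by
    rw [mul_pow]; exact mul_le_mul_of_nonneg_right hττ (sq_nonneg a)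
  have h6 := mul_nonneg hτ0 (sq_nonneg a)
  refine h4.trans ?_
  nlinarith [sq_nonneg (T - (τ * a)), sq_nonneg (D - (τ * a) / 2)]

theorem p4b : P4bStatement := by
  intro n c lam r η S Z ZZ ζ hP hS hcn
  obtain ⟨N, rfl⟩ : ∃ N, n = N + 1 := ⟨n - 1, by omega⟩
  have hR := hP.rts
  have hcN : c ≤ N := by omega
  -- monotonicity of S
  have hmono : ∀ i j, i ≤ j → j ≤ N + 1 → S i ≤ S j := by
    intro i j hij hj
    induction j, hij using Nat.le_induction with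
    | base => exact le_rfl
    | succ j hij ih => exact (ih (by omega)).trans (hS.mono j (by omega))
  have hSpos : ∀ i, i ≤ N + 1 → 0 < S i := fun i hi => hS.S0.trans_le (hmono 0 i (Nat.zero_le _) hi)
  have hSle : ∀ i, i ≤ N + 1 → S i ≤ 1 := fun i hi => by
    have := hmono i (N + 1) hi le_rfl
    rwa [hS.Sn] at this
  have hr0 : ∀ i, i ≤ N + 2 → 0 ≤ r i := by
    intro i hi
    rcases Nat.lt_or_ge i (N + 2) with h | h
    · exact (hR.rpos i (by omega)).le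
    · have : i = N + 1 + 1 := by omega
      rw [this, hR.rlast]
  -- abbreviations
  set κ : ℕ → ℝ := fun j => η (j + 1) - lam with hκ
  set ξ : ℕ → ℝ := fun j => 1 / S j - 1 with hξ
  set α : ℕ → ℝ := fun j => al r Z ZZ j with hα
  set τ := 1 - S c with hτ
  have hτ0 : 0 ≤ τ := by have := hSle c (by omega); simp only [hτ]; linarith
  have hτ1 : τ ≤ 1 := by have := hSpos c (by omega); simp only [hτ]; linarith
  have hsum : ∑ j ∈ Finset.Ico c (N + 1), (η (j + 1) - lam) * dx S j * al r Z ZZ j =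
      κ c * ξ c * α c +
        ∑ j ∈ Finset.Ico c N, ξ (j + 1) * (κ (j + 1) * α (j + 1) - κ j * α j) := by
    have h := abel c κ ξ α N hcN
    have h0 : ξ (N + 1) = 0 := by simp only [hξ]; rw [hS.Sn]; norm_num
    rw [h0] at h
    rw [mul_zero, zero_mul, sub_zero] at h
    rw [← h]
    apply Finset.sum_congr rfl
    intro j _
    simp only [hκ, hξ, hα, dx]
    ring
  have hfirst : κ c * ξ c * α c = κ c * (τ * (bs S Z c - r (c + 1) * bs S ZZ c)) := by
    have hne : S c ≠ 0 := (hSpos c (by omega)).ne'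
    simp only [hξ, hα, hτ, al, bs]
    field_simp
  have hterm : ∀ j ∈ Finset.Ico c N, ξ (j + 1) * (κ (j + 1) * α (j + 1) - κ j * α j) =
      (1 - S (j + 1)) * (κ j * nu r (j + 1) * bs S ZZ (j + 1)
        - (κ j - κ (j + 1)) * (bs S Z (j + 1) - r (j + 2) * bs S ZZ (j + 1))) := by
    intro j hj
    rw [Finset.mem_Ico] at hj
    have hne : S (j + 1) ≠ 0 := (hSpos (j + 1) (by omega)).ne'
    have hst := hS.step j (by omega)
    have hZ : Z j = Z (j + 1) - r (j + 1) * (ZZ (j + 1) - ZZ j) := by linarith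
    have hαj : α j = Z (j + 1) - r (j + 1) * ZZ (j + 1) := by
      simp only [hα, al]; rw [hZ]; ring
    rw [hαj]
    simp only [hξ, hα, al, bs, nu]
    field_simp
    ring
  rw [hsum, hfirst, Finset.sum_congr rfl hterm, mul_add, Finset.mul_sum]
  have hκ0 : ∀ j, c ≤ j → j ≤ N → 0 ≤ κ j ∧ κ j ≤ 1 / 50000 * r (j + 1) := by
    intro j h1 h2
    have := hP.etaout (j + 1) (by omega) (by omega)
    simp only [hκ]
    constructor <;> linarith [this.1, this.2]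
  have hdiff : ∀ j, c ≤ j → j < N → 0 ≤ κ j - κ (j + 1) ∧
      κ j - κ (j + 1) ≤ 1 / 50000 * nu r (j + 1) := by
    intro j h1 h2
    have := hP.etadiff (j + 1) (by omega) (by omega)
    have hν : 0 ≤ nu r (j + 1) := by
      have := hR.ranti (j + 1) (by omega); simp only [nu]; linarith
    simp only [hκ]
    constructor <;> nlinarith [this.1, this.2]
  have hν0 : ∀ j, j ≤ N → 0 ≤ nu r (j + 1) := by
    intro j hj
    have := hR.ranti (j + 1) (by omega); simp only [nu]; linarith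
  have hr1 : ∀ i, i ≤ N → r (i + 1) < 1 := by
    intro i hi
    induction i with
    | zero => exact hR.r1
    | succ i ih => exact (hR.ranti (i + 1) (by omega)).trans_lt (ih (by omega))
  have hG : ∀ j, j ≤ N → nu r (j + 1) * r (j + 1) ≤ Gs r (j + 1) := by
    intro j hj
    have h1 := hr0 (j + 1) (by omega)
    have h2 := hr0 (j + 1 + 1) (by omega)
    have h3 := hR.ranti (j + 1) (by omega)
    have h4 := hr1 j hj
    have h5 : r (j + 1 + 1) < 1 := h3.trans_lt h4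
    simp only [nu, Gs, hh]
    set x := r (j + 1)
    set y := r (j + 1 + 1)
    have hx : 0 < 1 - x ^ 2 := by nlinarith
    have hy : 0 < 1 - y ^ 2 := by nlinarith
    rw [div_sub_div _ _ hx.ne' hy.ne', le_div_iff₀ (mul_pos hx hy)]
    have e1 : x ^ 2 * (1 - y ^ 2) - (1 - x ^ 2) * y ^ 2 = (x - y) * (x + y) := by ring
    rw [e1]
    have e2 : (1 - x ^ 2) * (1 - y ^ 2) ≤ 1 := by
      have : 1 - x ^ 2 ≤ 1 := by nlinarith [sq_nonneg x]
      have : 1 - y ^ 2 ≤ 1 := by nlinarith [sq_nonneg y]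
      nlinarith
    have e3 : 0 ≤ (x - y) * x := mul_nonneg (by linarith) h1
    have e4 : 0 ≤ (x - y) * y := mul_nonneg (by linarith) h2
    nlinarith
  have hG0 : ∀ j, j ≤ N → 0 ≤ Gs r (j + 1) := fun j hj =>
    (mul_nonneg (hν0 j hj) (hr0 (j + 1) (by omega))).trans (hG j hj)
  have b1 := firstb ζ τ (κ c) (r (c + 1)) (bs S Z c) (bs S ZZ c) hτ0 hτ1 (hκ0 c le_rfl hcN).1
    (hκ0 c le_rfl hcN).2 (hr0 (c + 1) (by omega)) (hR.rc' (c + 1) (by omega) (by omega))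
  have b2 : |∑ j ∈ Finset.Ico c N, 4 * ζ * ((1 - S (j + 1)) * (κ j * nu r (j + 1) *
        bs S ZZ (j + 1) - (κ j - κ (j + 1)) * (bs S Z (j + 1) - r (j + 2) * bs S ZZ (j + 1))))| ≤
      ∑ j ∈ Finset.Ico c N, (nu r (j + 1) * (6 / 10000 * (τ * ζ ^ 2) +
        1 / 100000 * (bs S Z (j + 1) - ζ) ^ 2) +
        1 / 100 * (Gs r (j + 1) * (bs S ZZ (j + 1) - bs S Z (j + 1)) ^ 2)) := by
    refine (Finset.abs_sum_le_sum_abs _ _).trans (Finset.sum_le_sum ?_)
    intro j hj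
    rw [Finset.mem_Ico] at hj
    have hs := hSle (j + 1) (by omega)
    have hs2 := hmono c (j + 1) (by omega) (by omega)
    exact termb ζ (1 - S (j + 1)) τ (κ j) (κ j - κ (j + 1)) (nu r (j + 1)) (r (j + 1)) (r (j + 2))
      (bs S Z (j + 1)) (bs S ZZ (j + 1)) (Gs r (j + 1)) (by linarith)
      (by simp only [hτ]; linarith) hτ1 (hκ0 j hj.1 hj.2.le).1 (hκ0 j hj.1 hj.2.le).2
      (hdiff j hj.1 hj.2).1 (hdiff j hj.1 hj.2).2 (hν0 j hj.2.le) (hr0 _ (by omega))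
      (hR.ranti (j + 1) (by omega)) (hR.rc' (j + 1) (by omega) (by omega)) (hG j hj.2.le)
  have hsplit : ∑ j ∈ Finset.Ico c N, (nu r (j + 1) * (6 / 10000 * (τ * ζ ^ 2) +
        1 / 100000 * (bs S Z (j + 1) - ζ) ^ 2) +
        1 / 100 * (Gs r (j + 1) * (bs S ZZ (j + 1) - bs S Z (j + 1)) ^ 2)) =
      6 / 10000 * (τ * ζ ^ 2) * (∑ j ∈ Finset.Ico c N, nu r (j + 1)) +
      1 / 100000 * (∑ j ∈ Finset.Ico c N, nu r (j + 1) * (bs S Z (j + 1) - ζ) ^ 2) +
      1 / 100 * ∑ j ∈ Finset.Ico c N, Gs r (j + 1) * (bs S ZZ (j + 1) - bs S Z (j + 1)) ^ 2 := by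
    rw [Finset.mul_sum, Finset.mul_sum, Finset.mul_sum, ← Finset.sum_add_distrib,
      ← Finset.sum_add_distrib]
    apply Finset.sum_congr rfl
    intro j _
    ring
  have htel : ∑ j ∈ Finset.Ico c N, nu r (j + 1) = r (c + 1) - r (N + 1) := by
    have : ∀ m, c ≤ m → ∑ j ∈ Finset.Ico c m, nu r (j + 1) = r (c + 1) - r (m + 1) := by
      intro m hm
      induction m, hm using Nat.le_induction with
      | base => simp
      | succ m hm ih => rw [Finset.sum_Ico_succ_top hm, ih]; simp only [nu]; ring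
    exact this N hcN
  have hν3 : ∑ j ∈ Finset.Ico c N, nu r (j + 1) ≤ 1 / 3 := by
    rw [htel]
    have h1 := hR.rc' (c + 1) (by omega) (by omega)
    have h2 := hr0 (N + 1) (by omega)
    linarith
  have hB : ∑ j ∈ Finset.Ico c N, nu r (j + 1) * (bs S Z (j + 1) - ζ) ^ 2 ≤
      Bq (N + 1) c r S Z ζ := by
    unfold Bq
    rw [Finset.sum_Ico_succ_top hcN]
    have := mul_nonneg (hν0 N le_rfl) (sq_nonneg (bs S Z (N + 1) - ζ))
    linarith
  have hGq : ∑ j ∈ Finset.Ico c N, Gs r (j + 1) * (bs S ZZ (j + 1) - bs S Z (j + 1)) ^ 2 ≤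
      Gq (N + 1) c r S Z ZZ := by
    unfold Gq
    rw [Finset.sum_Ico_succ_top hcN]
    have := mul_nonneg (hG0 N le_rfl) (sq_nonneg (bs S ZZ (N + 1) - bs S Z (N + 1)))
    linarith
  rw [hsplit] at b2
  have hz := mul_nonneg hτ0 (sq_nonneg ζ)
  have h7 : 6 / 10000 * (τ * ζ ^ 2) * (∑ j ∈ Finset.Ico c N, nu r (j + 1)) ≤
      6 / 10000 * (τ * ζ ^ 2) * (1 / 3) :=
    mul_le_mul_of_nonneg_left hν3 (by positivity)
  refine (abs_add_le _ _).trans ?_
  calc _ ≤ (6 / 100000 * (τ * ζ ^ 2) + 2 / 100000 * (bs S Z c - ζ) ^ 2 +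
        1 / 100000 * (bs S ZZ c - bs S Z c) ^ 2) + _ := add_le_add b1 b2
    _ ≤ _ := by nlinarith

end Pool.Agent.Lib.MP_4fbe7c_an.UL.H20
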